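import Mathlib
import Pool.Agent.CFS.R.RMain2

/-!
# MP_be5eee_co: the conjectured bound without epsilon at broad points, all k, all dimensions

`V l` is euclidean space of dimension `2 l`.  The surfaces `S i` are arbitrary sets; `T i p` is an
`l`-dimensional subspace which approximates `S i` near `p` up to an angle `η = η(l, θ)` at the scale
`r`, and two points of `P` on one surface have distance at most `Λ r`.  A point is `θ`-broad if a
proportion `θ` of the pairs of surfaces through it have planes at angle at least `θ`.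
-/

namespace Pool.Agent.Results.MP_be5eee_co.BroadPoints

open Classical CFS

theorem result (l : ℕ) (θ : ℝ) (hθ : 0 < θ) : ∃ η : ℝ, 0 < η ∧
    ∀ (k C : ℕ) (Λ : ℝ), 2 ≤ k → ∃ A : ℝ, ∀ {ι : Type} (I : Finset ι) (P : Finset (V l))
      (S : ι → Set (V l)) (T : ι → V l → Submodule ℝ (V l)) (r : ℝ), 0 < r →
      (∀ i ∈ I, ∀ p ∈ P, ∀ q ∈ P, p ∈ S i → q ∈ S i → ‖q - p‖ ≤ Λ * r) →
      (∀ i ∈ I, ∀ p ∈ P, p ∈ S i → Module.finrank ℝ (T i p) = l) →
      (∀ i ∈ I, ∀ p ∈ P, ∀ q ∈ P, p ∈ S i → q ∈ S i → ‖q - p‖ ≤ r →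
        ∃ t ∈ T i p, ‖q - p - t‖ ≤ η * ‖q - p‖) →
      (∀ Y : Finset (V l), Y ⊆ P → Y.card = k → (I.filter (fun i => ∀ p ∈ Y, p ∈ S i)).card ≤ C) →
      (∀ p ∈ P, Broad θ I S T p) →
      ((∑ p ∈ P, (I.filter (fun i => p ∈ S i)).card : ℕ) : ℝ) ≤
        A * ((P.card : ℝ) ^ ((k : ℝ) / (2 * k - 1)) *
          (I.card : ℝ) ^ ((2 * k - 2 : ℝ) / (2 * k - 1)) + P.card + I.card) :=
  broad_main2 l θ hθ

end Pool.Agent.Results.MP_be5eee_co.BroadPoints
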