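import Mathlib
import Pool.Agent.D4Q.FIN

/-!
# MP_be5eee_co: the full answer to Q1 in dimension four

The conjectured bound, without epsilon, for all finite sets of points and all admissible families
of smooth two-dimensional varieties in `ℝ ^ 4`, all `k` and `C`; touching surfaces are allowed.
-/

namespace Pool.Agent.Results.MP_be5eee_co.FourDim

open D4Q

theorem result (k C : ℕ) (hk : 2 ≤ k) (hC : 1 ≤ C) : ∃ A : ℝ, 0 < A ∧
    ∀ (P : Finset (Fin 4 → ℝ)) (F : Finset (Set (Fin 4 → ℝ))), Adm k C F →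
      (inc P F : ℝ) ≤ A * ((P.card : ℝ) ^ ((k : ℝ) / (2 * k - 1)) *
        (F.card : ℝ) ^ ((2 * k - 2 : ℝ) / (2 * k - 1)) + P.card + F.card) :=
  D4Q.main k C hk hC

end Pool.Agent.Results.MP_be5eee_co.FourDim
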