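import Mathlib
import Pool.Agent.HDI.PartA
import Pool.Agent.HDI.PartH

/-!
# MP_be5eee_co: incidences with half-dimensional surfaces on Cartesian products, no
transversality

The bound of Q1, without epsilon, for dense subsets of Cartesian products none of whose
factors is too small, in particular of products of sets of comparable sizes. Touching
(non-transversal) surfaces are allowed.
-/

namespace Pool.Agent.Results.MP_be5eee_co.Touching

open HDI

theorem result (e k C K : ℕ) (he : 1 ≤ e) (hk : 2 ≤ k) (hC : 1 ≤ C) (hK : 1 ≤ K) :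
    ∃ A : ℝ, 0 < A ∧ ∀ (B : Fin (2 * e) → Finset ℝ) (P : Finset (Fin (2 * e) → ℝ))
      (F : Finset (Set (Fin (2 * e) → ℝ))),
      Admissible e k C F → P ⊆ Fintype.piFinset B → (∏ i, (B i).card) ≤ K * P.card →
      ((∀ i j, (B i).card ≤ K * (B j).card) ∨
        (∀ i, P.card ^ k ≤ K * F.card * (B i).card ^ (e * (2 * k - 1)))) →
      (inc P F : ℝ) ≤ A * ((P.card : ℝ) ^ ((k : ℝ) / (2 * k - 1)) *
        (F.card : ℝ) ^ ((2 * k - 2 : ℝ) / (2 * k - 1)) + P.card + F.card) := by
  obtain ⟨A1, hA1, h1⟩ := partA e k C K he hk hC hK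
  obtain ⟨A2, hA2, h2⟩ := partH e k C K he hk hC hK
  refine ⟨A1 + A2, by positivity, ?_⟩
  intro B P F hF hPB hd h
  have hk1 : (0 : ℝ) ≤ (P.card : ℝ) ^ ((k : ℝ) / (2 * k - 1)) *
      (F.card : ℝ) ^ ((2 * k - 2 : ℝ) / (2 * k - 1)) + P.card + F.card := by positivity
  rcases h with h | h
  · refine (h1 B P F hF hPB hd h).trans (mul_le_mul_of_nonneg_right (by linarith) hk1)
  · refine (h2 B P F hF hPB hd h).trans (mul_le_mul_of_nonneg_right (by linarith) hk1)

end Pool.Agent.Results.MP_be5eee_co.Touching
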