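import Mathlib
import Pool.Agent.CFS.T.TMain

/-!
# MP_be5eee_co: the conjectured bound without epsilon for triangular families of surfaces, k = 2

The ambient space is `X × X` with `X = ∏ t, X t` (`t : Fin s`), of dimension `d = 2 ∑ dim (X t)`;
the surface with index `i` is given by `y t = B i t (x t) + h i t (x, y)` for all blocks `t`, where
`B i t` is linear and `h i t (x, y)` depends on the blocks before `t` of `(x, y)` in an arbitrary
way and on `x t` in a restricted way: if two points agree in the blocks before `t`, the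
difference `h i t - h j t` varies by at most `ε ‖B i t - B j t‖ ‖x t - x' t‖`.  Two surfaces with
different indices which share a point of `P` have in every block a nonzero `K`-conformal difference
`B i t - B j t`.
-/

namespace Pool.Agent.Results.MP_be5eee_co.TriangularSurfaces

open Classical

theorem result (s : ℕ) (X : Fin s → Type) [∀ t, NormedAddCommGroup (X t)]
    [∀ t, NormedSpace ℝ (X t)] [∀ t, FiniteDimensional ℝ (X t)] (K : ℝ) :
    ∃ ε : ℝ, 0 < ε ∧ ∃ A : ℝ, ∀ {ι : Type} (I : Finset ι)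
      (P : Finset (((t : Fin s) → X t) × ((t : Fin s) → X t)))
      (B : ι → (t : Fin s) → (X t →L[ℝ] X t))
      (h : ι → (t : Fin s) → (((t : Fin s) → X t) × ((t : Fin s) → X t)) → X t),
      (∀ i ∈ I, ∀ t, ∀ p ∈ P, ∀ q ∈ P, (∀ u < t, p.1 u = q.1 u ∧ p.2 u = q.2 u) →
        p.1 t = q.1 t → h i t p = h i t q) →
      (∀ i ∈ I, ∀ j ∈ I, ∀ t, ∀ p ∈ P, ∀ q ∈ P, (∀ u < t, p.1 u = q.1 u ∧ p.2 u = q.2 u) →
        ‖(h i t p - h j t p) - (h i t q - h j t q)‖ ≤
          ε * (‖B i t - B j t‖ * ‖p.1 t - q.1 t‖)) →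
      (∀ i ∈ I, ∀ j ∈ I, i ≠ j → ∀ p ∈ P, (∀ t, p.2 t = B i t (p.1 t) + h i t p) →
        (∀ t, p.2 t = B j t (p.1 t) + h j t p) →
        ∀ t, B i t ≠ B j t ∧ ∀ u w : X t,
          ‖(B i t - B j t) u‖ * ‖w‖ ≤ K * (‖(B i t - B j t) w‖ * ‖u‖)) →
      ((∑ p ∈ P, (I.filter (fun i => ∀ t, p.2 t = B i t (p.1 t) + h i t p)).card : ℕ) : ℝ) ≤
        A * ((P.card : ℝ) ^ (2 / 3 : ℝ) * (I.card : ℝ) ^ (2 / 3 : ℝ) + P.card + I.card) :=
  CFS.t_main s X K

end Pool.Agent.Results.MP_be5eee_co.TriangularSurfaces
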